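import Pool.Agent.H91DI.Main
import Pool.Agent.H852R2.TE.S.FIN

/-!
MP_75608d_al.  The diameter of a random Cayley graph of `A_n` with a fixed number of generators is
at most `n^(1+δ)`.

For every `δ > 0` there is `k₀` such that for all `k ≥ k₀` there is `C` such that for all `n ≥ 1` the
probability that `k` independent uniform elements of `A_n` do not generate `A_n` with diameter at most
`n^(1+δ)` is at most `C / n`.

Proof. (1) The first `k - 1` elements have with high probability a gap on `r`-tuples, `r ≤ n^(1-δ/4)`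
(starting files), and then the trace of a power of the lazy walk is small in all nontrivial
irreducible representations. Since a class function acts by scalars in irreducible representations,
the walk contracts all class functions of mean zero, so after `O(log n)` steps the walk started at the
last generator meets every union of conjugacy classes of density at least `1/n²`, for most values
of the last generator. (2) So some `u` of length `O(log n)` consists of two cycles of lengths `a` and
`p`, where `p ≈ n^(1-δ/4)` is a prime not dividing `a ≥ n - p - 1`; `u^a` is a `p`-cycle of length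
`O(n log n)`. (3) By the gap on `p`-tuples all `p`-cycles have length `O(n log n)`. (4) Every even
permutation is a product of `O(n/p)` `p`-cycles: it is a product of four even products of disjoint
transpositions, and these can be cut into pieces which are products of two `p`-cycles.
-/

namespace Pool.Agent.Results.MP_75608d_al.NearLinearDiameter
open RC14 Finset Filter Topology

noncomputable section

/-- every element of `A_n` is a product of at most `D` factors from `{x_i, x_i⁻¹}` -/
def DiamLE {n k : ℕ} (D : ℝ) (x : Fin k → alternatingGroup (Fin n)) : Prop :=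
  ∀ g : alternatingGroup (Fin n), ∃ w : List (alternatingGroup (Fin n)), (w.length : ℝ) ≤ D ∧
    (∀ y ∈ w, ∃ i, y = x i ∨ y = (x i)⁻¹) ∧ w.prod = g

lemma diamLE_of {n k : ℕ} {D : ℝ} (hD : 0 ≤ D) {x : Fin k → Alt n}
    (h : ∀ g : Alt n, H91DI.IsW x g ⌊D⌋₊) : DiamLE D x := by
  intro g
  obtain ⟨w, h1, h2, h3⟩ := h g
  refine ⟨w, ?_, h2, h3⟩
  calc (w.length : ℝ) ≤ (⌊D⌋₊ : ℝ) := by exact_mod_cast h1
    _ ≤ D := Nat.floor_le hD

theorem result (δ : ℝ) (hδ : 0 < δ) : ∃ k₀ : ℕ, ∀ k ≥ k₀, ∃ C : ℝ, ∀ n : ℕ, 1 ≤ n →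
    (Nat.card {x : Fin k → alternatingGroup (Fin n) // ¬ DiamLE ((n : ℝ) ^ (1 + δ)) x} : ℝ) ≤
      C / (n : ℝ) * (Fintype.card (alternatingGroup (Fin n)) : ℝ) ^ k := by
  set δ' : ℝ := min δ (1 / 2) with hδ'
  have hd0 : 0 < δ' := lt_min hδ (by norm_num)
  have hd1 : δ' ≤ 1 / 2 := min_le_right _ _
  have hd2 : δ' ≤ δ := min_le_left _ _
  obtain ⟨k0, hk0⟩ := TE852.GAPE (1 - δ' / 4) (TE852.TEMAIN (1 - δ' / 4) (by linarith))
  refine ⟨k0 + 2, fun K hK => ?_⟩
  obtain ⟨k, rfl⟩ : ∃ k, K = k + 1 := ⟨K - 1, by omega⟩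
  obtain ⟨c, hc, B, hB, hgap⟩ := hk0 k (by omega)
  have hk1 : 1 ≤ k := by omega
  -- for large `n`
  have hev : ∀ᶠ n : ℕ in atTop, (Nat.card {x : Fin (k + 1) → Alt n //
      ¬ DiamLE ((n : ℝ) ^ (1 + δ)) x} : ℝ) ≤ (B + 1) / n * (Fintype.card (Alt n) : ℝ) ^ (k + 1) := by
    filter_upwards [hgap, H91DI.main_ev δ' hd0 hd1 k hk1 c hc, eventually_ge_atTop 1]
      with n h1 h2 h3
    have hn1 : (1 : ℝ) ≤ n := by exact_mod_cast h3
    have hn0 : (0 : ℝ) < n := by linarith
    have hcount : (Nat.card {x : Fin (k + 1) → Alt n // ¬ DiamLE ((n : ℝ) ^ (1 + δ)) x} : ℝ) =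
        (Nat.card {p : (Fin k → Alt n) × Alt n //
          ¬ DiamLE ((n : ℝ) ^ (1 + δ)) (Fin.cons p.2 p.1 : Fin (k + 1) → Alt n)} : ℝ) := by
      norm_cast
      exact (card_equiv ((Equiv.prodComm _ _).trans (Fin.consEquiv fun _ => Alt n)) _ _
        fun z => Iff.rfl).symm
    rw [hcount]
    refine (card_prod_bound (fun x : Fin k → Alt n => Good1 n (TE852.Rr (1 - δ' / 4) n) c x)
      (fun x g => ¬ DiamLE ((n : ℝ) ^ (1 + δ)) (Fin.cons g x : Fin (k + 1) → Alt n)) (1 / (n : ℝ))
      (by positivity) ?_).trans ?_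
    · intro x hx
      refine le_trans ?_ (h2 x hx)
      have h4 := RC14.card_mono (fun g : Alt n =>
        ¬ DiamLE ((n : ℝ) ^ (1 + δ)) (Fin.cons g x : Fin (k + 1) → Alt n))
        (fun g => ¬ ∀ h : Alt n,
          H91DI.IsW (Fin.cons g x : Fin (k + 1) → Alt n) h ⌊(n : ℝ) ^ (1 + δ')⌋₊)
        (fun g hg h => hg (diamLE_of (by positivity) fun a => H91DI.isW_mono (h a)
          (Nat.floor_le_floor (Real.rpow_le_rpow_of_exponent_le hn1 (by linarith)))))
      exact_mod_cast h4
    · rw [Fintype.card_fun, Fintype.card_fin]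
      push_cast
      have hA : (0 : ℝ) ≤ (Fintype.card (Alt n) : ℝ) := Nat.cast_nonneg _
      calc (Nat.card {x : Fin k → Alt n // ¬ Good1 n (TE852.Rr (1 - δ' / 4) n) c x} : ℝ) *
            Fintype.card (Alt n) + 1 / (n : ℝ) * (Fintype.card (Alt n) : ℝ) ^ k *
            Fintype.card (Alt n)
          ≤ (B / (n : ℝ) * (Fintype.card (Alt n) : ℝ) ^ k) * Fintype.card (Alt n) +
            1 / (n : ℝ) * (Fintype.card (Alt n) : ℝ) ^ k * Fintype.card (Alt n) := by gcongr
        _ = (B + 1) / n * (Fintype.card (Alt n) : ℝ) ^ (k + 1) := by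
            rw [pow_succ]
            ring
  -- for all `n`
  obtain ⟨n0, hn0⟩ := eventually_atTop.1 hev
  refine ⟨max (B + 1) n0, fun n hn => ?_⟩
  have hn' : (0 : ℝ) < n := by exact_mod_cast hn
  have hA : (0 : ℝ) ≤ (Fintype.card (Alt n) : ℝ) ^ (k + 1) := by positivity
  rcases le_or_gt n0 n with h | h
  · refine (hn0 n h).trans ?_
    gcongr
    exact le_max_left _ _
  · have h1 : Nat.card {x : Fin (k + 1) → Alt n // ¬ DiamLE ((n : ℝ) ^ (1 + δ)) x} ≤
        Nat.card (Fin (k + 1) → Alt n) := Nat.card_le_card_of_injective _ Subtype.val_injective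
    rw [Nat.card_eq_fintype_card (α := Fin (k + 1) → Alt n), Fintype.card_fun,
      Fintype.card_fin] at h1
    have h2 : (Nat.card {x : Fin (k + 1) → Alt n // ¬ DiamLE ((n : ℝ) ^ (1 + δ)) x} : ℝ) ≤
        (Fintype.card (Alt n) : ℝ) ^ (k + 1) := by exact_mod_cast h1
    have h3 : (1 : ℝ) ≤ max (B + 1) n0 / n := by
      rw [le_div_iff₀ hn', one_mul]
      have : (n : ℝ) ≤ n0 := by exact_mod_cast h.le
      exact this.trans (le_max_right _ _)
    calc _ ≤ 1 * (Fintype.card (Alt n) : ℝ) ^ (k + 1) := by rw [one_mul]; exact h2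
      _ ≤ _ := by gcongr

end

end Pool.Agent.Results.MP_75608d_al.NearLinearDiameter
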