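import Pool.Agent.H91DI.Aug
import Pool.Agent.H852R2.TE.S.FIN

/-!
MP_75608d_al.  Random elements and one arbitrary element of small support are almost expanding.

For every `δ > 0` there is `k₀` such that for all `k ≥ k₀` there is `C` such that for all `n ≥ 1`, for
all but a proportion `C / n` of the `k`-tuples `x` of elements of `A_n`: for EVERY element `z ≠ 1` of
`A_n` which fixes at least `3n/4` points (for instance a 3-cycle), the `k + 1` elements
`z, x_1, …, x_k` are an `n^(-δ)`-expanding generating set of `A_n`, i.e. `1 - λ₂ ≥ n^(-δ)`.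

Proof. (1) The words of length `L = O(log n)` in `x` are equidistributed on triples of points.
So for every `z' ≠ 1` with support `S`, `|S| = r`, there is a word `u` of length `L` such that
`y = u⁻¹ z' u` satisfies `[z', y] ≠ 1` and `|S ∩ supp y| ≤ 1 + 1.03 r²/n`; the commutator has at most
`3 + 3.09 r²/n` points in its support. Starting from `r ≤ n/4` this converges quadratically: after
`O(log log n)` commutators the support is bounded, and a last commutator is a 3-cycle. So all 3-cycles
are words of length `O((log n)³)` in `z, x_1, …, x_k`. (2) In the irreducible representations with a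
nonzero vector fixed by the pointwise stabiliser of at most `n^(1-δ/8)` points there is a gap by the
starting files (gap on tuples); in the others the average displacement of every vector by the
3-cycles is at least `c n^(-δ/2)`, and it is at most `O((log n)⁶)` times the energy.
-/

namespace Pool.Agent.Results.MP_75608d_al.OneSmallElement
open RC14 Finset Filter Topology

noncomputable section

/-- for every `z ≠ 1` in `A_n` which moves at most `n / 4` points, the elements `z, x_1, …, x_k` are
`n^(-δ)`-expanding: they generate `A_n`, and `⟨f, P f⟩ ≤ (1 - n^(-δ)) ⟨f, f⟩` for all real functions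
`f` on `A_n` of sum zero, where `P` is the operator of the random walk with the generators
`z, x_1, …, x_k` and their inverses -/
def Completes {n k : ℕ} (δ : ℝ) (x : Fin k → alternatingGroup (Fin n)) : Prop :=
  ∀ z : alternatingGroup (Fin n), z ≠ 1 → 4 * (z : Equiv.Perm (Fin n)).support.card ≤ n →
    Expanding ((n : ℝ) ^ (-δ)) (Fin.cons z x : Fin (k + 1) → alternatingGroup (Fin n))

theorem result (δ : ℝ) (hδ : 0 < δ) : ∃ k₀ : ℕ, ∀ k ≥ k₀, ∃ C : ℝ, ∀ n : ℕ, 1 ≤ n →
    (Nat.card {x : Fin k → alternatingGroup (Fin n) // ¬ Completes δ x} : ℝ) ≤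
      C / (n : ℝ) * (Fintype.card (alternatingGroup (Fin n)) : ℝ) ^ k := by
  set δ' : ℝ := min (δ / 2) 1 with hδ'
  have hd0 : 0 < δ' := lt_min (by positivity) one_pos
  have hd1 : δ' ≤ 1 := min_le_right _ _
  have hd2 : δ' ≤ δ / 2 := min_le_left _ _
  obtain ⟨k0, hk0⟩ := TE852.GAPE (1 - δ' / 4) (TE852.TEMAIN (1 - δ' / 4) (by linarith))
  refine ⟨k0 + 1, fun k hk => ?_⟩
  obtain ⟨c, hc, B, hB, hgap⟩ := hk0 k (by omega)
  have hk1 : 1 ≤ k := by omega
  -- for large `n`
  have hev : ∀ᶠ n : ℕ in atTop, (Nat.card {x : Fin k → Alt n //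
      ¬ Completes δ x} : ℝ) ≤ B / n * (Fintype.card (Alt n) : ℝ) ^ k := by
    filter_upwards [hgap, H91DI.aug_ev δ' hd0 hd1 k hk1 c hc, eventually_ge_atTop 1]
      with n h1 h2 h3
    have hn1 : (1 : ℝ) ≤ n := by exact_mod_cast h3
    refine le_trans ?_ h1
    have h4 := RC14.card_mono (fun x : Fin k → Alt n => ¬ Completes δ x)
      (fun x => ¬ Good1 n (TE852.Rr (1 - δ' / 4) n) c x) (by
        intro x hx hgood
        apply hx
        intro z hz hS
        exact (h2 x hgood z hz hS).mono
          (Real.rpow_le_rpow_of_exponent_le hn1 (by linarith)))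
    exact_mod_cast h4
  -- for all `n`
  obtain ⟨n0, hn0⟩ := eventually_atTop.1 hev
  refine ⟨max B n0, fun n hn => ?_⟩
  have hn' : (0 : ℝ) < n := by exact_mod_cast hn
  have hA : (0 : ℝ) ≤ (Fintype.card (Alt n) : ℝ) ^ k := by positivity
  rcases le_or_gt n0 n with h | h
  · refine (hn0 n h).trans ?_
    gcongr
    exact le_max_left _ _
  · have h1 : Nat.card {x : Fin k → Alt n // ¬ Completes δ x} ≤
        Nat.card (Fin k → Alt n) := Nat.card_le_card_of_injective _ Subtype.val_injective
    rw [Nat.card_eq_fintype_card (α := Fin k → Alt n), Fintype.card_fun,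
      Fintype.card_fin] at h1
    have h2 : (Nat.card {x : Fin k → Alt n // ¬ Completes δ x} : ℝ) ≤
        (Fintype.card (Alt n) : ℝ) ^ k := by exact_mod_cast h1
    have h3 : (1 : ℝ) ≤ max B n0 / n := by
      rw [le_div_iff₀ hn', one_mul]
      have : (n : ℝ) ≤ n0 := by exact_mod_cast h.le
      exact this.trans (le_max_right _ _)
    calc _ ≤ 1 * (Fintype.card (Alt n) : ℝ) ^ k := by rw [one_mul]; exact h2
      _ ≤ _ := by gcongr

end

end Pool.Agent.Results.MP_75608d_al.OneSmallElement
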