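import Pool.Agent.H91DI.Sg
import Pool.Agent.H852R2.TE.S.FIN

/-!
MP_75608d_al.  The spectral gap of a random Cayley graph of `A_n` with a fixed number of generators is
at least `n^(-2-δ)`.

For every `δ > 0` there is `k₀` such that for all `k ≥ k₀` there is `C` such that for all `n ≥ 1` the
probability that `k` independent uniform elements of `A_n` are not an `n^(-2-δ)`-expanding generating
set is at most `C / n`.

Proof. Every element is a word of length at most `D = n^(1+δ/4)` (see `NearLinearDiameter`: class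
functions contract, so some word of length `O(log n)` has a `p`-cycle, `p ≈ n^(1-δ')`, as a power;
by the gap on `p`-tuples all `p`-cycles have length `O(n log n)`, and every even permutation is a
product of `O(n/p)` of them). The average of `‖R(g) f - f‖²` over `g` is `2 ‖f‖²` for `f` of mean
zero, and it is at most `D²` times the energy.
-/

namespace Pool.Agent.Results.MP_75608d_al.SpectralGap
open RC14 Finset Filter Topology

noncomputable section

theorem result (δ : ℝ) (hδ : 0 < δ) : ∃ k₀ : ℕ, ∀ k ≥ k₀, ∃ C : ℝ, ∀ n : ℕ, 1 ≤ n →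
    (Nat.card {x : Fin k → alternatingGroup (Fin n) // ¬ Expanding ((n : ℝ) ^ (-(2 + δ))) x} : ℝ) ≤
      C / (n : ℝ) * (Fintype.card (alternatingGroup (Fin n)) : ℝ) ^ k := by
  set δ' : ℝ := min (δ / 4) (1 / 2) with hδ'
  have hd0 : 0 < δ' := lt_min (by positivity) (by norm_num)
  have hd1 : δ' ≤ 1 / 2 := min_le_right _ _
  have hd2 : δ' ≤ δ / 4 := min_le_left _ _
  obtain ⟨k0, hk0⟩ := TE852.GAPE (1 - δ' / 4) (TE852.TEMAIN (1 - δ' / 4) (by linarith))
  refine ⟨k0 + 2, fun K hK => ?_⟩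
  obtain ⟨k, rfl⟩ : ∃ k, K = k + 1 := ⟨K - 1, by omega⟩
  obtain ⟨c, hc, B, hB, hgap⟩ := hk0 k (by omega)
  have hk1 : 1 ≤ k := by omega
  -- for large `n`
  have hev : ∀ᶠ n : ℕ in atTop, (Nat.card {x : Fin (k + 1) → Alt n //
      ¬ Expanding ((n : ℝ) ^ (-(2 + δ))) x} : ℝ) ≤
        (B + 1) / n * (Fintype.card (Alt n) : ℝ) ^ (k + 1) := by
    filter_upwards [hgap, H91DI.main_ev δ' hd0 hd1 k hk1 c hc, ev_const (δ / 2) (k + 1)
      (by positivity), eventually_ge_atTop 1] with n h1 h2 hkn h3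
    have hn1 : (1 : ℝ) ≤ n := by exact_mod_cast h3
    have hn0 : (0 : ℝ) < n := by linarith
    have hexp : ∀ y : Fin (k + 1) → Alt n, (∀ h : Alt n, H91DI.IsW y h ⌊(n : ℝ) ^ (1 + δ')⌋₊) →
        Expanding ((n : ℝ) ^ (-(2 + δ))) y := by
      intro y hy
      set D : ℕ := ⌊(n : ℝ) ^ (1 + δ')⌋₊ with hD
      have hD1 : 1 ≤ D := by
        rw [hD]
        apply Nat.le_floor
        rw [Nat.cast_one]
        exact Real.one_le_rpow hn1 (by linarith)
      have hDn : (D : ℝ) ≤ (n : ℝ) ^ (1 + δ') := Nat.floor_le (by positivity)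
      refine (H91DI.expanding_of_diam (by omega) y D hD1 hy).mono ?_
      have hD0 : (0 : ℝ) < D := by exact_mod_cast hD1
      rw [Real.rpow_neg hn0.le, inv_eq_one_div]
      apply one_div_le_one_div_of_le (by positivity)
      push_cast
      calc ((k : ℝ) + 1) * (D : ℝ) ^ 2 ≤ (n : ℝ) ^ (δ / 2) * ((n : ℝ) ^ (1 + δ')) ^ 2 := by
            gcongr
        _ = (n : ℝ) ^ (δ / 2 + (1 + δ') * 2) := by
            rw [← Real.rpow_natCast ((n : ℝ) ^ (1 + δ')), ← Real.rpow_mul hn0.le,
              ← Real.rpow_add hn0]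
            norm_num
        _ ≤ (n : ℝ) ^ (2 + δ) := Real.rpow_le_rpow_of_exponent_le hn1 (by linarith)
    have hcount : (Nat.card {x : Fin (k + 1) → Alt n // ¬ Expanding ((n : ℝ) ^ (-(2 + δ))) x} : ℝ) =
        (Nat.card {p : (Fin k → Alt n) × Alt n //
          ¬ Expanding ((n : ℝ) ^ (-(2 + δ))) (Fin.cons p.2 p.1 : Fin (k + 1) → Alt n)} : ℝ) := by
      norm_cast
      exact (card_equiv ((Equiv.prodComm _ _).trans (Fin.consEquiv fun _ => Alt n)) _ _
        fun z => Iff.rfl).symm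
    rw [hcount]
    refine (card_prod_bound (fun x : Fin k → Alt n => Good1 n (TE852.Rr (1 - δ' / 4) n) c x)
      (fun x g => ¬ Expanding ((n : ℝ) ^ (-(2 + δ))) (Fin.cons g x : Fin (k + 1) → Alt n))
      (1 / (n : ℝ)) (by positivity) ?_).trans ?_
    · intro x hx
      refine le_trans ?_ (h2 x hx)
      have h4 := RC14.card_mono (fun g : Alt n =>
        ¬ Expanding ((n : ℝ) ^ (-(2 + δ))) (Fin.cons g x : Fin (k + 1) → Alt n))
        (fun g => ¬ ∀ h : Alt n,
          H91DI.IsW (Fin.cons g x : Fin (k + 1) → Alt n) h ⌊(n : ℝ) ^ (1 + δ')⌋₊)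
        (fun g hg h => hg (hexp _ h))
      exact_mod_cast h4
    · rw [Fintype.card_fun, Fintype.card_fin]
      push_cast
      have hA : (0 : ℝ) ≤ (Fintype.card (Alt n) : ℝ) := Nat.cast_nonneg _
      calc (Nat.card {x : Fin k → Alt n // ¬ Good1 n (TE852.Rr (1 - δ' / 4) n) c x} : ℝ) *
            Fintype.card (Alt n) + 1 / (n : ℝ) * (Fintype.card (Alt n) : ℝ) ^ k *
            Fintype.card (Alt n)
          ≤ (B / (n : ℝ) * (Fintype.card (Alt n) : ℝ) ^ k) * Fintype.card (Alt n) +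
            1 / (n : ℝ) * (Fintype.card (Alt n) : ℝ) ^ k * Fintype.card (Alt n) := by gcongr
        _ = (B + 1) / n * (Fintype.card (Alt n) : ℝ) ^ (k + 1) := by
            rw [pow_succ]
            ring
  -- for all `n`
  obtain ⟨n0, hn0⟩ := eventually_atTop.1 hev
  refine ⟨max (B + 1) n0, fun n hn => ?_⟩
  have hn' : (0 : ℝ) < n := by exact_mod_cast hn
  have hA : (0 : ℝ) ≤ (Fintype.card (Alt n) : ℝ) ^ (k + 1) := by positivity
  rcases le_or_gt n0 n with h | h
  · refine (hn0 n h).trans ?_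
    gcongr
    exact le_max_left _ _
  · have h1 : Nat.card {x : Fin (k + 1) → Alt n // ¬ Expanding ((n : ℝ) ^ (-(2 + δ))) x} ≤
        Nat.card (Fin (k + 1) → Alt n) := Nat.card_le_card_of_injective _ Subtype.val_injective
    rw [Nat.card_eq_fintype_card (α := Fin (k + 1) → Alt n), Fintype.card_fun,
      Fintype.card_fin] at h1
    have h2 : (Nat.card {x : Fin (k + 1) → Alt n // ¬ Expanding ((n : ℝ) ^ (-(2 + δ))) x} : ℝ) ≤
        (Fintype.card (Alt n) : ℝ) ^ (k + 1) := by exact_mod_cast h1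
    have h3 : (1 : ℝ) ≤ max (B + 1) n0 / n := by
      rw [le_div_iff₀ hn', one_mul]
      have : (n : ℝ) ≤ n0 := by exact_mod_cast h.le
      exact this.trans (le_max_right _ _)
    calc _ ≤ 1 * (Fintype.card (Alt n) : ℝ) ^ (k + 1) := by rw [one_mul]; exact h2
      _ ≤ _ := by gcongr

end

end Pool.Agent.Results.MP_75608d_al.SpectralGap
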