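import Pool.Agent.H91DI.Flat3
import Pool.Agent.H852R2.TE.S.FIN

/-!
MP_75608d_al.  Uniform exponential contraction of the random walk on all functions with many
symmetries.

For every `δ > 0` there is `k₀` such that for all `k ≥ k₀` there are `ε > 0` and `C` such that for
all `n ≥ 1` the following holds for all but a proportion `C / n` of the `k`-tuples `x` of elements
of `A_n`. Let `f` be a real function on `A_n` of mean zero, and suppose that for all `h` in a
subgroup of index at most `exp (n^(1-δ))` there is `h'` with `f (h' g h) = f g` for all `g` (for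
instance `f` is invariant under conjugation by the subgroup; all class functions qualify). Then
`‖T^ℓ f‖² ≤ exp (-ε ℓ) ‖f‖²` for all `ℓ ≤ n^(1-δ)`, where `T` is the lazy random walk on the Cayley
graph.

Proof. The operator `C = ∑ f(g) ρ(g)` satisfies that `C* C` commutes with `ρ(h)`, `h ∈ H`, so in an
irreducible representation `V` the eigenspace of its largest eigenvalue `m` is invariant under `H`
and has dimension at least `dim V / [A_n : H]`; so `m dim V ≤ [A_n : H] tr (C* C)`. Therefore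
`tr (T^(2L) C* C) ≤ m tr (T^(2L)) ≤ [A_n : H] η tr (C* C)` with `η = max tr (T^(2L)) / dim V`,
and `η ≤ 2 exp (-X)`, `X ≥ 2 n^(1-δ) + 2`, `L = O(X)`, by the gap on tuples (starting files) and
the bounds for characters. Summing over the regular representation gives the contraction for `ℓ = L`,
and the log-convexity of `‖T^ℓ f‖²` gives the smaller `ℓ`.
-/

namespace Pool.Agent.Results.MP_75608d_al.SymmetricContraction
open RC14 Finset Filter Topology

noncomputable section

/-- one step of the lazy random walk on the Cayley graph of `x` -/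
def lwalk {n k : ℕ} (x : Fin k → alternatingGroup (Fin n)) (f : alternatingGroup (Fin n) → ℝ) :
    alternatingGroup (Fin n) → ℝ :=
  fun g => f g / 2 + (∑ i, (f (g * x i) + f (g * (x i)⁻¹))) / (4 * k)

/-- the walk contracts all functions of mean zero with many symmetries: if for all `h` in a subgroup
of index at most `exp (n^(1-δ))` there is `h'` with `f (h' g h) = f g` for all `g`, then
`‖T^ℓ f‖² ≤ exp (-ε ℓ) ‖f‖²` for all `ℓ ≤ n^(1-δ)` -/
def Contracts {n k : ℕ} (δ ε : ℝ) (x : Fin k → alternatingGroup (Fin n)) : Prop :=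
  ∀ H : Subgroup (alternatingGroup (Fin n)), (H.index : ℝ) ≤ Real.exp ((n : ℝ) ^ (1 - δ)) →
    ∀ f : alternatingGroup (Fin n) → ℝ, ∑ g, f g = 0 →
      (∀ h ∈ H, ∃ h' : alternatingGroup (Fin n), ∀ g, f (h' * g * h) = f g) →
        ∀ l : ℕ, (l : ℝ) ≤ (n : ℝ) ^ (1 - δ) →
          ∑ g, ((lwalk x)^[l] f g) ^ 2 ≤ Real.exp (-(ε * l)) * ∑ g, (f g) ^ 2

lemma vec_lwalk {n k : ℕ} (x : Fin k → Alt n) (f : Alt n → ℝ) :
    H91DI.vec (lwalk x f) = TL (RR n) x (H91DI.vec f) := by
  ext g
  rw [WORDS.TL_apply, H91DI.vec_apply, lwalk, PiLp.smul_apply, PiLp.add_apply, PiLp.smul_apply,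
    WithLp.ofLp_sum, Finset.sum_apply]
  simp only [PiLp.add_apply, RR_apply, H91DI.vec_apply, smul_eq_mul]
  push_cast
  ring

lemma vec_iter {n k : ℕ} (x : Fin k → Alt n) (l : ℕ) (f : Alt n → ℝ) :
    H91DI.vec ((lwalk x)^[l] f) = (TL (RR n) x ^ l) (H91DI.vec f) := by
  induction l with
  | zero => simp
  | succ l ih =>
    rw [Function.iterate_succ_apply', vec_lwalk, ih, pow_succ' (TL (RR n) x) l]
    rfl

lemma norm_vec {n : ℕ} (f : Alt n → ℝ) : ‖H91DI.vec f‖ ^ 2 = ∑ g, (f g) ^ 2 := by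
  rw [EuclideanSpace.norm_sq_eq]
  refine Finset.sum_congr rfl fun g _ => ?_
  rw [H91DI.vec_apply, Complex.norm_real, Real.norm_eq_abs, sq_abs]

theorem result (δ : ℝ) (hδ : 0 < δ) : ∃ k₀ : ℕ, ∀ k ≥ k₀, ∃ ε > 0, ∃ C : ℝ, ∀ n : ℕ, 1 ≤ n →
    (Nat.card {x : Fin k → alternatingGroup (Fin n) // ¬ Contracts δ ε x} : ℝ) ≤
      C / (n : ℝ) * (Fintype.card (alternatingGroup (Fin n)) : ℝ) ^ k := by
  set δ' : ℝ := min δ (1 / 2) with hδ'
  have hd0 : 0 < δ' := lt_min hδ (by norm_num)
  have hd1 : δ' ≤ 1 / 2 := min_le_right _ _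
  have hd2 : δ' ≤ δ := min_le_left _ _
  obtain ⟨k0, hk0⟩ := TE852.GAPE (1 - δ' / 4) (TE852.TEMAIN (1 - δ' / 4) (by linarith))
  refine ⟨k0 + 1, fun k hk => ?_⟩
  obtain ⟨c, hc, B, hB, hgap⟩ := hk0 k (by omega)
  have hk1 : 1 ≤ k := by omega
  have hkpos : (0 : ℝ) < k := by exact_mod_cast hk1
  set c' : ℝ := min c 1 with hc'
  have hc0 : 0 < c' := lt_min hc one_pos
  have hcc : c' ≤ c := min_le_left _ _
  refine ⟨c' / (14 * k), by positivity, ?_⟩
  -- for large `n`
  have hev : ∀ᶠ n : ℕ in atTop, (Nat.card {x : Fin k → Alt n //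
      ¬ Contracts δ (c' / (14 * k)) x} : ℝ) ≤ B / n * (Fintype.card (Alt n) : ℝ) ^ k := by
    filter_upwards [hgap, H91DI.flat_ev δ' hd0 (by linarith) k hk1 c' hc0 (min_le_right _ _),
      eventually_ge_atTop 1] with n h1 h2 h3
    have hn1 : (1 : ℝ) ≤ n := by exact_mod_cast h3
    refine le_trans ?_ h1
    have h4 := RC14.card_mono (fun x : Fin k → Alt n => ¬ Contracts δ (c' / (14 * k)) x)
      (fun x => ¬ Good1 n (TE852.Rr (1 - δ' / 4) n) c x) (by
        intro x hx hgood
        apply hx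
        have hgood' : Good1 n (TE852.Rr (1 - δ' / 4) n) c' x := by
          intro j hj1 hj2 v hv
          exact (mul_le_mul_of_nonneg_right hcc (sq_nonneg _)).trans (hgood j hj1 hj2 v hv)
        intro H hH f hf0 hf l hl
        have hpow : (n : ℝ) ^ (1 - δ) ≤ (n : ℝ) ^ (1 - δ') :=
          Real.rpow_le_rpow_of_exponent_le hn1 (by linarith)
        have key := h2 x hgood' H (hH.trans (Real.exp_le_exp.mpr hpow)) f hf hf0 l
          (hl.trans hpow)
        rw [← vec_iter, norm_vec, norm_vec] at key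
        exact key)
    exact_mod_cast h4
  -- for all `n`
  obtain ⟨n0, hn0⟩ := eventually_atTop.1 hev
  refine ⟨max B n0, fun n hn => ?_⟩
  have hn' : (0 : ℝ) < n := by exact_mod_cast hn
  have hA : (0 : ℝ) ≤ (Fintype.card (Alt n) : ℝ) ^ k := by positivity
  rcases le_or_gt n0 n with h | h
  · refine (hn0 n h).trans ?_
    gcongr
    exact le_max_left _ _
  · have h1 : Nat.card {x : Fin k → Alt n // ¬ Contracts δ (c' / (14 * k)) x} ≤
        Nat.card (Fin k → Alt n) := Nat.card_le_card_of_injective _ Subtype.val_injective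
    rw [Nat.card_eq_fintype_card (α := Fin k → Alt n), Fintype.card_fun,
      Fintype.card_fin] at h1
    have h2 : (Nat.card {x : Fin k → Alt n // ¬ Contracts δ (c' / (14 * k)) x} : ℝ) ≤
        (Fintype.card (Alt n) : ℝ) ^ k := by exact_mod_cast h1
    have h3 : (1 : ℝ) ≤ max B n0 / n := by
      rw [le_div_iff₀ hn', one_mul]
      have : (n : ℝ) ≤ n0 := by exact_mod_cast h.le
      exact this.trans (le_max_right _ _)
    calc _ ≤ 1 * (Fintype.card (Alt n) : ℝ) ^ k := by rw [one_mul]; exact h2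
      _ ≤ _ := by gcongr

end

end Pool.Agent.Results.MP_75608d_al.SymmetricContraction
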